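import Mathlib
import Pool.Agent.TH598.GV.Defs

/-!
# Job 3421 (GV-J): small facts about `bt`, `Dm`, `om`, `FF`, `qf`
-/

set_option autoImplicit false

namespace Pool.Agent.TH543.GV

open Finset MeasureTheory
open Pool.Agent.TH598.GV
open scoped ComplexConjugate ComplexOrder

theorem E_alt {k : ℕ} (s : Sx k) (i j : Ix k) : E s j i = - E s i j := by
  simp only [E]; ring

/-- J11: facts about the matrices of the hyperplane -/
theorem bt_alt {k : ℕ} (z : Sx k → ℂ) (i j : Ix k) : bt z j i = - bt z i j := by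
  simp only [bt, ← Finset.sum_neg_distrib]
  refine Finset.sum_congr rfl fun s _ => ?_
  rw [E_alt s i j]; ring

theorem em_ne_e0 {k : ℕ} (a : K k) : em a ≠ (e0 : Ix k) := by
  intro h
  have := congrArg Prod.fst h
  simp [Pool.Agent.TH598.GV.em, e0] at this

theorem em_ne_e1 {k : ℕ} (a : K k) : em a ≠ (e1 : Ix k) := by
  intro h
  have := congrArg Prod.fst h
  simp [Pool.Agent.TH598.GV.em, e1] at this

theorem e0_ne_e1 {k : ℕ} : (e0 : Ix k) ≠ e1 := by
  intro h
  have := congrArg Prod.snd h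
  simp [e0, e1] at this

theorem em_inj {k : ℕ} {a b : K k} : em a = em b ↔ a = b := by
  constructor
  · intro h
    have h1 := congrArg Prod.fst h
    have h2 := congrArg Prod.snd h
    simp only [Pool.Agent.TH598.GV.em, Fin.succ_inj] at h1 h2
    exact Prod.ext h1 h2
  · rintro rfl; rfl

theorem E_e0 {k : ℕ} (s : Sx k) (j : Ix k) : E s e0 j = 0 := by
  rcases s with a | p
  · simp only [E, pr, Prod.mk.injEq]
    rw [if_neg (fun h => e0_ne_e1 h.1), if_neg (fun h => em_ne_e0 a h.2.symm)]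
    simp
  · simp only [E, pr, Prod.mk.injEq]
    rw [if_neg (fun h => em_ne_e0 _ h.1.symm), if_neg (fun h => em_ne_e0 _ h.2.symm)]
    simp

theorem bt_e0 {k : ℕ} (z : Sx k → ℂ) (j : Ix k) : bt z e0 j = 0 := by
  simp only [bt, E_e0, mul_zero, Finset.sum_const_zero]

theorem bt_e0' {k : ℕ} (z : Sx k → ℂ) (j : Ix k) : bt z j e0 = 0 := by
  rw [bt_alt, bt_e0, neg_zero]

theorem sum_Ix {k : ℕ} (f : Ix k → ℂ) : ∑ i, f i = f e0 + f e1 + ∑ a : K k, f (em a) := by
  rw [Fintype.sum_prod_type, Fin.sum_univ_succ, Fintype.sum_prod_type]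
  simp only [Fintype.sum_bool, e0, e1, Pool.Agent.TH598.GV.em]
  ring

theorem wv_e0 {k : ℕ} (u : K k → ℂ) : wv u e0 = 0 := by
  simp only [wv]
  rw [if_neg e0_ne_e1]
  rw [Finset.sum_eq_zero]
  · simp
  · intro j _
    rw [if_neg (fun h => em_ne_e0 j h.symm), mul_zero]

theorem wv_e1 {k : ℕ} (u : K k → ℂ) : wv u e1 = 1 := by
  simp only [wv]
  rw [Finset.sum_eq_zero]
  · simp
  · intro j _
    rw [if_neg (fun h => em_ne_e1 j h.symm), mul_zero]

theorem wv_em {k : ℕ} (u : K k → ℂ) (a : K k) : wv u (em a) = u a := by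
  simp only [wv]
  rw [if_neg (em_ne_e1 a), Finset.sum_eq_single a]
  · simp
  · intro b _ hb
    rw [if_neg (fun h => hb (em_inj.1 h).symm), mul_zero]
  · intro h; exact absurd (Finset.mem_univ a) h

theorem bt_self {k : ℕ} (z : Sx k → ℂ) (i : Ix k) : bt z i i = 0 := by
  have := bt_alt z i i
  have h2 : (2 : ℂ) * bt z i i = 0 := by linear_combination this
  exact (mul_eq_zero.1 h2).resolve_left (by norm_num)

theorem bt_e1_em {k : ℕ} (z : Sx k → ℂ) (b : K k) : bt z e1 (em b) = z (Sum.inl b) := by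
  simp only [bt, Fintype.sum_sum_type]
  have h1 : ∀ a : K k, E (Sum.inl a : Sx k) e1 (em b) = if a = b then 1 else 0 := by
    intro a
    simp only [E, pr, Prod.mk.injEq, em_inj, true_and]
    rw [if_neg (c := em b = e1 ∧ e1 = em a) (fun h => em_ne_e1 b h.1)]
    simp [eq_comm]
  have h2 : ∀ p : Pr k, E (Sum.inr p : Sx k) e1 (em b) = 0 := by
    intro p
    simp only [E, pr, Prod.mk.injEq]
    rw [if_neg (fun h => em_ne_e1 _ h.1.symm), if_neg (fun h => em_ne_e1 _ h.2.symm)]
    simp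
  simp [h1, h2]

theorem Dm_def {k : ℕ} (x : Pr k → ℂ) (a b : K k) :
    Dm k x a b = ∑ p : Pr k, x p * E (Sum.inr p) (em a) (em b) := rfl

theorem bt_em_em {k : ℕ} (z : Sx k → ℂ) (a b : K k) :
    bt z (em a) (em b) = Dm k (fun p => z (Sum.inr p)) a b := by
  simp only [bt, Fintype.sum_sum_type, Dm_def]
  have h1 : ∀ c : K k, E (Sum.inl c : Sx k) (em a) (em b) = 0 := by
    intro c
    simp only [E, pr, Prod.mk.injEq]
    rw [if_neg (fun h => em_ne_e1 _ h.1), if_neg (fun h => em_ne_e1 _ h.1)]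
    simp
  simp [h1]

theorem Dm_alt {k : ℕ} (x : Pr k → ℂ) (a b : K k) : Dm k x b a = - Dm k x a b := by
  simp only [Dm_def, ← Finset.sum_neg_distrib]
  refine Finset.sum_congr rfl fun p _ => ?_
  rw [E_alt _ (em a) (em b)]; ring

theorem bt_kernel {k : ℕ} (u : K k → ℂ) (x : Pr k → ℂ) (j : Ix k) :
    ∑ i, wv u i * bt (zu (Dm k) u x) i j = 0 := by
  rw [sum_Ix]
  simp only [wv_e0, wv_e1, wv_em, zero_mul, zero_add, one_mul]
  have hj : j = e0 ∨ j = e1 ∨ ∃ b : K k, j = em b := by
    rcases j with ⟨c, t⟩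
    refine Fin.cases ?_ (fun c => ?_) c
    · cases t
      · exact Or.inl rfl
      · exact Or.inr (Or.inl rfl)
    · exact Or.inr (Or.inr ⟨(c, t), rfl⟩)
  rcases hj with rfl | rfl | ⟨b, rfl⟩
  · simp [bt_e0']
  · rw [bt_self, zero_add]
    have h1 : ∀ a : K k, bt (zu (Dm k) u x) (em a) e1 = ∑ c, u c * Dm k x c a := by
      intro a
      rw [bt_alt, bt_e1_em]
      simp [zu]
    simp only [h1, Finset.mul_sum]
    have h2 : ∑ a : K k, ∑ c : K k, u a * (u c * Dm k x c a) =
        - ∑ a : K k, ∑ c : K k, u a * (u c * Dm k x c a) := by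
      conv_lhs => rw [Finset.sum_comm]
      rw [← Finset.sum_neg_distrib]
      refine Finset.sum_congr rfl fun a _ => ?_
      rw [← Finset.sum_neg_distrib]
      refine Finset.sum_congr rfl fun c _ => ?_
      rw [Dm_alt x c a]; ring
    have h3 : (2 : ℂ) * ∑ a : K k, ∑ c : K k, u a * (u c * Dm k x c a) = 0 := by
      linear_combination h2
    exact (mul_eq_zero.1 h3).resolve_left (by norm_num)
  · rw [bt_e1_em]
    have h1 : ∀ a : K k, bt (zu (Dm k) u x) (em a) (em b) = Dm k x a b := by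
      intro a
      rw [bt_em_em]
      rfl
    simp only [h1]
    simp [zu]

/-! ### `Dm_det` -/

theorem Dm_apply {k : ℕ} (x : Pr k → ℂ) (a c : K k) :
    Dm k x a c = (if h : ps a < ps c then x ⟨(a, c), h⟩ else 0) -
      (if h : ps c < ps a then x ⟨(c, a), h⟩ else 0) := by
  simp only [Dm_def, E, pr, Prod.mk.injEq, em_inj, mul_sub,
    Finset.sum_sub_distrib]
  have key : ∀ a c : K k, ∑ p : Pr k, x p * (if a = p.1.1 ∧ c = p.1.2 then 1 else 0) =
      (if h : ps a < ps c then x ⟨(a, c), h⟩ else 0) := by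
    intro a c
    by_cases h : ps a < ps c
    · rw [dif_pos h, Finset.sum_eq_single (⟨(a, c), h⟩ : Pr k)]
      · simp
      · intro p _ hp
        rw [if_neg, mul_zero]
        rintro ⟨rfl, rfl⟩
        exact hp rfl
      · intro h; exact absurd (Finset.mem_univ _) h
    · rw [dif_neg h, Finset.sum_eq_zero]
      intro p _
      rw [if_neg, mul_zero]
      rintro ⟨rfl, rfl⟩
      exact h p.2
  rw [key a c, key c a]

/-- the point of `Pr k → ℂ` giving the standard symplectic matrix -/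
noncomputable def x0 (k : ℕ) : Pr k → ℂ := fun p => if p.1.1.1 = p.1.2.1 then 1 else 0

theorem Dm_x0 {k : ℕ} (a c : K k) :
    Dm k (x0 k) a c = if c = (a.1, !a.2) then (if a.2 then -1 else 1) else 0 := by
  rw [Dm_apply]
  rcases a with ⟨a, s⟩
  rcases c with ⟨c, t⟩
  by_cases hac : c = a
  · subst hac
    cases s <;> cases t <;> simp [ps, x0]
  · have h1 : ((c, t) : K k) ≠ (a, !s) := fun h => hac (congrArg Prod.fst h)
    rw [if_neg h1]
    have h2 : ∀ (h : ps ((a, s) : K k) < ps ((c, t) : K k)),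
        x0 k ⟨((a, s), (c, t)), h⟩ = 0 := by
      intro h
      simp only [x0]
      rw [if_neg (fun h => hac h.symm)]
    have h3 : ∀ (h : ps ((c, t) : K k) < ps ((a, s) : K k)),
        x0 k ⟨((c, t), (a, s)), h⟩ = 0 := by
      intro h
      simp only [x0]
      rw [if_neg (fun h => hac h)]
    simp [h2, h3]

theorem Dm_sq {k : ℕ} : Dm k (x0 k) * Dm k (x0 k) = -1 := by
  ext a d
  rw [Matrix.mul_apply]
  rw [Finset.sum_eq_single ((a.1, !a.2) : K k)]
  · rw [Dm_x0, Dm_x0]
    rcases a with ⟨a, s⟩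
    rcases d with ⟨d, t⟩
    by_cases hda : d = a
    · subst hda
      cases s <;> cases t <;> simp
    · simp [hda, Ne.symm hda]
  · intro c _ hc
    rw [Dm_x0, if_neg hc, zero_mul]
  · intro h; exact absurd (Finset.mem_univ _) h

theorem Dm_det {k : ℕ} : ∃ x, (Dm k x).det ≠ 0 := by
  refine ⟨x0 k, fun h => ?_⟩
  have h1 := congrArg Matrix.det (Dm_sq (k := k))
  rw [Matrix.det_mul, h, Matrix.det_neg, Matrix.det_one] at h1
  have : ((-1 : ℂ)) ^ Fintype.card (K k) ≠ 0 := pow_ne_zero _ (by norm_num)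
  apply this
  simpa using h1.symm

/-! ### `om_poly` -/

/-- polynomial functions -/
def IsP {k : ℕ} (f : (Pr k → ℂ) → ℂ) : Prop :=
  ∃ q : MvPolynomial (Pr k) ℂ, ∀ x, f x = MvPolynomial.eval x q

theorem IsP.const {k : ℕ} (c : ℂ) : IsP (k := k) (fun _ => c) :=
  ⟨MvPolynomial.C c, fun x => by simp⟩

theorem IsP.coord {k : ℕ} (p : Pr k) : IsP (k := k) (fun x => x p) :=
  ⟨MvPolynomial.X p, fun x => by simp⟩

theorem IsP.mul {k : ℕ} {f g : (Pr k → ℂ) → ℂ} (hf : IsP f) (hg : IsP g) :
    IsP (fun x => f x * g x) := by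
  obtain ⟨p, hp⟩ := hf
  obtain ⟨q, hq⟩ := hg
  exact ⟨p * q, fun x => by simp [hp, hq]⟩

theorem IsP.neg {k : ℕ} {f : (Pr k → ℂ) → ℂ} (hf : IsP f) : IsP (fun x => - f x) := by
  obtain ⟨p, hp⟩ := hf
  exact ⟨-p, fun x => by simp [hp]⟩

theorem IsP.sum {k : ℕ} {ι : Type} (s : Finset ι) {f : ι → (Pr k → ℂ) → ℂ}
    (hf : ∀ i, IsP (f i)) : IsP (fun x => ∑ i ∈ s, f i x) := by
  choose q hq using hf
  exact ⟨∑ i ∈ s, q i, fun x => by simp [hq]⟩

theorem IsP.prod {k : ℕ} {ι : Type} (s : Finset ι) {f : ι → (Pr k → ℂ) → ℂ}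
    (hf : ∀ i, IsP (f i)) : IsP (fun x => ∏ i ∈ s, f i x) := by
  choose q hq using hf
  exact ⟨∏ i ∈ s, q i, fun x => by simp [hq]⟩

theorem IsP.Dm {k : ℕ} (a b : K k) : IsP (fun x : Pr k → ℂ => Dm k x a b) := by
  simp only [Dm_def]
  exact IsP.sum _ fun p => (IsP.coord p).mul (IsP.const _)

theorem IsP.zu {k : ℕ} (u : K k → ℂ) (s : Sx k) :
    IsP (fun x : Pr k → ℂ => zu (Pool.Agent.TH598.GV.Dm k) u x s) := by
  rcases s with j | p
  · simp only [Pool.Agent.TH598.GV.zu, Sum.elim_inl]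
    exact (IsP.sum _ fun a => (IsP.const _).mul (IsP.Dm a j)).neg
  · simp only [Pool.Agent.TH598.GV.zu, Sum.elim_inr]
    exact IsP.coord p

theorem IsP.bt {k : ℕ} (u : K k → ℂ) (i j : Ix k) :
    IsP (fun x : Pr k → ℂ =>
      bt (Pool.Agent.TH598.GV.zu (Pool.Agent.TH598.GV.Dm k) u x) i j) := by
  simp only [Pool.Agent.TH598.GV.bt]
  exact IsP.sum _ fun s => (IsP.zu u s).mul (IsP.const _)

theorem om_poly {k : ℕ} (u : K k → ℂ) : ∃ q : MvPolynomial (Pr k) ℂ, ∀ x,
    om (bt (zu (Dm k) u x)) e1 = MvPolynomial.eval x q := by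
  have : IsP (fun x : Pr k → ℂ => om (bt (zu (Dm k) u x)) e1) := by
    simp only [om, PP]
    refine IsP.sum _ fun σ => (IsP.const _).mul (IsP.prod _ fun b => ?_)
    refine Fin.cases ?_ (fun c => ?_) b
    · simp only [Fin.cons_zero]
      exact IsP.const _
    · simp only [Fin.cons_succ]
      exact IsP.bt u _ _
  exact this

/-! ### `FF_cont` -/

theorem bt_cont {k : ℕ} (L : Matrix (Sx k) (Sx k) ℂ) (i j : Ix k) :
    Continuous fun ξ : Sx k → ℂ => bt (L.mulVec ξ) i j := by
  simp only [bt]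
  refine continuous_finsetSum _ fun s _ => ?_
  refine Continuous.mul ?_ continuous_const
  simp only [Matrix.mulVec, dotProduct]
  exact continuous_finsetSum _ fun t _ => continuous_const.mul (continuous_apply t)

theorem om_cont {k : ℕ} (L : Matrix (Sx k) (Sx k) ℂ) (p : Ix k) :
    Continuous fun ξ : Sx k → ℂ => om (bt (L.mulVec ξ)) p := by
  simp only [om, PP]
  refine continuous_finsetSum _ fun σ _ => ?_
  refine continuous_const.mul (continuous_finsetProd _ fun b _ => ?_)
  refine Fin.cases ?_ (fun c => ?_) b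
  · simp only [Fin.cons_zero]
    exact continuous_const
  · simp only [Fin.cons_succ]
    exact bt_cont L _ _

theorem FF_cont {k : ℕ} (L : Matrix (Sx k) (Sx k) ℂ) (g : Sx k → Ix k → ℂ)
    (Γ : Matrix (Ix k) (Ix k) ℂ) : Continuous (FF L g Γ) := by
  unfold FF
  refine Continuous.add (Continuous.pow (Continuous.norm ?_) 2) (Complex.continuous_re.comp ?_)
  · refine continuous_finsetSum _ fun p _ => Continuous.mul ?_ (om_cont L p)
    exact continuous_finsetSum _ fun a _ => (continuous_apply a).mul continuous_const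
  · refine continuous_finsetSum _ fun p _ => continuous_finsetSum _ fun q _ => ?_
    exact (continuous_const.mul (om_cont L p)).mul (Complex.continuous_conj.comp (om_cont L q))

/-! ### `qf_HH` -/

/-- the value of a matrix on a pair of vectors -/
noncomputable def bv {I : Type} [Fintype I] (h : I → I → ℂ) (z w : I → ℂ) : ℂ :=
  ∑ i, ∑ j, h i j * (z i * w j)

theorem qf_rank1 {I : Type} [Fintype I] (h h' : I → I → ℂ) (z w : I → ℂ) :
    qf (fun i j i' j' => h i j * conj (h' i' j')) z w = bv h z w * conj (bv h' z w) := by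
  simp only [qf, bv, map_sum, map_mul]
  rw [Finset.sum_mul]
  refine Finset.sum_congr rfl fun i _ => ?_
  rw [Finset.sum_mul]
  refine Finset.sum_congr rfl fun j _ => ?_
  rw [Finset.mul_sum]
  refine Finset.sum_congr rfl fun i' _ => ?_
  rw [Finset.mul_sum]
  refine Finset.sum_congr rfl fun j' _ => ?_
  ring

theorem qf_add {I : Type} [Fintype I] (H H' : I → I → I → I → ℂ) (z w : I → ℂ) :
    qf (fun i j i' j' => H i j i' j' + H' i j i' j') z w = qf H z w + qf H' z w := by
  simp only [qf, add_mul, Finset.sum_add_distrib]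

theorem qf_sum {I S : Type} [Fintype I] [Fintype S] (H : S → I → I → I → I → ℂ) (z w : I → ℂ) :
    qf (fun i j i' j' => ∑ s, H s i j i' j') z w = ∑ s, qf (H s) z w := by
  classical
  have key : ∀ T : Finset S, qf (fun i j i' j' => ∑ s ∈ T, H s i j i' j') z w =
      ∑ s ∈ T, qf (H s) z w := by
    intro T
    induction T using Finset.induction_on with
    | empty => simp [qf]
    | insert a T ha ih =>
      simp only [Finset.sum_insert ha]
      rw [qf_add, ih]
  exact key Finset.univ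

theorem bv_add {I : Type} [Fintype I] (h h' : I → I → ℂ) (z w : I → ℂ) :
    bv (fun i j => h i j + h' i j) z w = bv h z w + bv h' z w := by
  simp only [bv, add_mul, Finset.sum_add_distrib]

theorem bv_sum {I S : Type} [Fintype I] [Fintype S] (c : S → ℂ) (h : S → I → I → ℂ)
    (z w : I → ℂ) :
    bv (fun i j => ∑ s, c s * h s i j) z w = ∑ s, c s * bv (h s) z w := by
  simp only [bv, Finset.sum_mul, Finset.mul_sum]
  calc ∑ i, ∑ j, ∑ s, c s * h s i j * (z i * w j)
      = ∑ i, ∑ s, ∑ j, c s * h s i j * (z i * w j) :=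
        Finset.sum_congr rfl fun i _ => Finset.sum_comm
    _ = ∑ s, ∑ i, ∑ j, c s * h s i j * (z i * w j) := Finset.sum_comm
    _ = _ := by
        refine Finset.sum_congr rfl fun s _ => Finset.sum_congr rfl fun i _ =>
          Finset.sum_congr rfl fun j _ => ?_
        ring

theorem bv_W {k : ℕ} (p : Ix k) (z w : Ix k → ℂ) :
    bv (W p) z w = z e0 * w p - z p * w e0 := by
  simp only [bv, W, sub_mul, Finset.sum_sub_distrib]
  congr 1
  · rw [Finset.sum_eq_single e0]
    · rw [Finset.sum_eq_single p]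
      · simp
      · intro j _ hj; rw [if_neg hj]; ring
      · intro h; exact absurd (Finset.mem_univ _) h
    · intro i _ hi
      refine Finset.sum_eq_zero fun j _ => ?_
      rw [if_neg hi]; ring
    · intro h; exact absurd (Finset.mem_univ _) h
  · rw [Finset.sum_eq_single p]
    · rw [Finset.sum_eq_single e0]
      · simp
      · intro j _ hj; rw [if_neg hj]; ring
      · intro h; exact absurd (Finset.mem_univ _) h
    · intro i _ hi
      refine Finset.sum_eq_zero fun j _ => ?_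
      rw [if_neg hi]; ring
    · intro h; exact absurd (Finset.mem_univ _) h

theorem W_conj {k : ℕ} (p : Ix k) (i j : Ix k) : conj (W p i j) = W p i j := by
  simp only [W, map_sub, map_mul]
  congr 1 <;> congr 1 <;> split_ifs <;> simp

theorem bv_bt {k : ℕ} (y : Sx k → ℂ) (b w : Ix k → ℂ) :
    bv (bt y) (fun i => (if i = e0 then 1 else 0) - b i) w =
      - ∑ i, ∑ j, bt y i j * b i * w j := by
  simp only [bv]
  have h1 : ∀ i j : Ix k, bt y i j * (((if i = e0 then 1 else 0) - b i) * w j) =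
      - (bt y i j * b i * w j) := by
    intro i j
    by_cases hi : i = e0
    · subst hi
      rw [bt_e0]; ring
    · rw [if_neg hi]; ring
  simp only [h1, Finset.sum_neg_distrib]

theorem qf_HH {k : ℕ} (L : Matrix (Sx k) (Sx k) ℂ) (g : Sx k → Ix k → ℂ)
    (Γ : Matrix (Ix k) (Ix k) ℂ) (b : Ix k → ℂ) (hb : b e0 = 0) (u : K k → ℂ) :
    qf (HH L g Γ) (fun i => (if i = e0 then 1 else 0) - b i) (wv u) =
      ((∑ a, ‖(∑ p, g a p * wv u p) - ∑ i, ∑ j, bt (fun s => L s a) i j * b i * wv u j‖ ^ 2 : ℝ)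
        : ℂ) + ∑ p, ∑ q, Γ p q * wv u p * conj (wv u q) := by
  set z : Ix k → ℂ := fun i => (if i = e0 then 1 else 0) - b i with hz
  have hz0 : z e0 = 1 := by simp [hz, hb]
  have hW : ∀ p : Ix k, bv (W p) z (wv u) = wv u p := by
    intro p
    rw [bv_W, hz0, wv_e0]; ring
  unfold HH
  rw [qf_add, qf_sum, qf_sum]
  congr 1
  · push_cast
    refine Finset.sum_congr rfl fun a _ => ?_
    rw [qf_rank1, Complex.mul_conj, Complex.normSq_eq_norm_sq]
    push_cast
    congr 3
    unfold hh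
    rw [bv_add, bv_sum, hz, bv_bt, ← hz]
    simp only [hW]
    ring
  · refine Finset.sum_congr rfl fun p _ => ?_
    rw [qf_sum]
    refine Finset.sum_congr rfl fun q _ => ?_
    have h1 : qf (fun i j i' j' => Γ p q * W p i j * W q i' j') z (wv u) =
        Γ p q * qf (fun i j i' j' => W p i j * conj (W q i' j')) z (wv u) := by
      simp only [qf, Finset.mul_sum, W_conj]
      refine Finset.sum_congr rfl fun i _ => Finset.sum_congr rfl fun j _ =>
        Finset.sum_congr rfl fun i' _ => Finset.sum_congr rfl fun j' _ => ?_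
      ring
    rw [h1, qf_rank1, hW, hW]
    ring


end Pool.Agent.TH543.GV
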